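import Mathlib
import Pool.Agent.Y922.KB.Stm2

/-!
# Convexity inequality
-/

set_option autoImplicit false

namespace Pool.Agent.Y975.KB

open Complex Pool.Agent.Y922.KB

theorem inner_bound (c η : ℝ) (z : ℂ) :
    ‖z - c‖ ^ 2 - η * (‖z‖ ^ 2 - c ^ 2) ≤ ‖z - c‖ * ‖(z - c) - η * (z + c)‖ := by
  have h1 := Complex.re_le_norm ((starRingEnd ℂ) (z - c) * ((z - c) - η * (z + c)))
  rw [norm_mul, Complex.norm_conj] at h1
  refine le_trans (le_of_eq ?_) h1
  rw [← Complex.normSq_eq_norm_sq, ← Complex.normSq_eq_norm_sq]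
  simp only [Complex.normSq_apply, Complex.mul_re, Complex.conj_re, Complex.conj_im,
    Complex.sub_re, Complex.sub_im, Complex.add_re, Complex.add_im, Complex.mul_im,
    Complex.ofReal_re, Complex.ofReal_im]
  ring

/-- convexity -/
theorem t_LPT : S_LPT := by
  intro c η p z hc hη hp
  have hp0 : p ≠ 0 := by linarith
  have hX : 0 ≤ ‖(z - c) - η * (z + c)‖ ^ p := Real.rpow_nonneg (norm_nonneg _) _
  rcases (norm_nonneg (z - c)).eq_or_lt with hA | hA
  · have hz : z = c := by
      rw [← sub_eq_zero, ← norm_eq_zero]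
      exact hA.symm
    have h1 : ‖z‖ ^ 2 - c ^ 2 = 0 := by
      rw [hz, Complex.norm_real, Real.norm_eq_abs, sq_abs, sub_self]
    rw [h1, ← hA, Real.zero_rpow hp0, mul_zero, mul_zero, sub_zero]
    exact hX
  · set A := ‖z - c‖ with hAdef
    set X := ‖(z - c) - η * (z + c)‖ with hXdef
    set R := ‖z‖ ^ 2 - c ^ 2 with hR
    have h1 : A ^ 2 - η * R ≤ A * X := inner_bound c η z
    have hA2 : A ^ 2 ≠ 0 := by positivity
    set s := -(η * R) / A ^ 2 with hs
    have h2 : A * (1 + s) ≤ X := by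
      have h3 : A * (1 + s) = (A ^ 2 - η * R) / A := by
        rw [hs]
        field_simp
        ring
      rw [h3, div_le_iff₀ hA]
      linarith
    have h4 : A ^ (p - 2) = A ^ p / A ^ 2 := by
      rw [Real.rpow_sub hA]
      norm_num
    have h5 : A ^ p - η * p * (A ^ (p - 2) * R) = A ^ p * (1 + p * s) := by
      rw [h4, hs]
      field_simp
      ring
    have hAp : 0 < A ^ p := Real.rpow_pos_of_pos hA p
    rw [h5]
    rcases le_or_gt (-1) s with h6 | h6
    · have h7 : 1 + p * s ≤ (1 + s) ^ p := one_add_mul_self_le_rpow_one_add h6 (by linarith)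
      calc A ^ p * (1 + p * s) ≤ A ^ p * (1 + s) ^ p := mul_le_mul_of_nonneg_left h7 hAp.le
        _ = (A * (1 + s)) ^ p := (Real.mul_rpow hA.le (by linarith)).symm
        _ ≤ X ^ p := Real.rpow_le_rpow (mul_nonneg hA.le (by linarith)) h2 (by linarith)
    · have h7 : 1 + p * s ≤ 0 := by nlinarith
      exact (mul_nonpos_of_nonneg_of_nonpos hAp.le h7).trans hX

end Pool.Agent.Y975.KB
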